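import Pool.Agent.RVI.Main

set_option autoImplicit false

namespace Pool.Agent.Results.MP_75f27a_lc.Independence

open STP RVI Pool.RVM

/-- Real-valued measurability of the continuum does not decide whether universal analytic sets are
in the sigma-algebra generated by the rectangles.

(A) If there are a measurable cardinal `κ = #K`, a cofinal Kurepa family on `κ`, and the continuum
hypothesis holds (all this is true in `L[U]`), then there is a structure `(N, E)` which satisfies
the axioms of ZFC and in which the continuum is real-valued measurable and every universal analytic
subset of `C × C` (`C` the Cantor space) is in the sigma-algebra generated by the rectangles of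
`C × C`; moreover `(N, E)` has a universal analytic set.

(B) If there are a measurable cardinal and a universal analytic subset of the unit square which is
not in the sigma-algebra generated by the rectangles, then there is a structure `(N, E)` which
satisfies the axioms of ZFC and in which the continuum is real-valued measurable and some
universal analytic subset of `C × C` is not in the sigma-algebra generated by the rectangles. -/
theorem result :
    (∀ (K : Type) (U : Ultrafilter K), IsMU U → CofKurepa K →
      (Cardinal.continuum : Cardinal.{0}) = Cardinal.aleph 1 →
      ∃ (N : Type 1) (E : N → N → Prop), ZFC E ∧ RVMC E ∧ UASigma E ∧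
        ∃ w C A, IsOm E w ∧ IsPw E C w ∧ IsUA E w C A) ∧
    ∀ (K : Type) (U : Ultrafilter K), IsMU U →
      (∃ W : Set (unitInterval × unitInterval), UniversalAnalytic W ∧ ¬ RectMeas W) →
      ∃ (N : Type 1) (E : N → N → Prop), ZFC E ∧ RVMC E ∧ ¬ UASigma E := by
  refine ⟨fun K U hU hKur hCH => ?_, fun K U hU hW => main_neg hU hW⟩
  exact main_pos hU hCH hKur

end Pool.Agent.Results.MP_75f27a_lc.Independence
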