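import Pool.Agent.RVM.Final

set_option autoImplicit false

namespace Pool.Agent.Results.MP_75f27a_lc.Reflection

open Pool.RVM

/-- If the continuum is real-valued measurable, a subset `W` of the unit square (for instance a
universal analytic set) lies in the sigma-algebra generated by all rectangles if and only if for
every set `X` of fewer than continuum many points the trace of `W` on `X × X` lies in the
sigma-algebra generated by the rectangles of `X × X`. -/
theorem result (h : RVMContinuum) (W : Set (unitInterval × unitInterval)) :
    RectMeas W ↔ ∀ X : Set unitInterval, Cardinal.mk X < Cardinal.continuum →
      RectMeas {p : X × X | ((p.1 : unitInterval), (p.2 : unitInterval)) ∈ W} :=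
  ⟨fun hW X _ => rectMeas_preimage hW (fun x : X => (x : unitInterval)) (fun x : X => (x : unitInterval)),
    fun hW => reflection h W hW⟩

end Pool.Agent.Results.MP_75f27a_lc.Reflection
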